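import Mathlib
import Pool.Agent.H17.Ponag

set_option autoImplicit false

namespace Pool.Agent.Results.MP_74305c_gt.Neg
open Pool.Agent.H17.Ponag

theorem result : ∃ (X : Type) (_ : TopologicalSpace X), Infinite X ∧ T2Space X ∧ RegularSpace X ∧
    BobWins X ∧ ¬ TotParacompact X :=
  ⟨T, inferInstance, inferInstance, inferInstance, inferInstance, bob, not_tp⟩

end Pool.Agent.Results.MP_74305c_gt.Neg
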